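import Pool.Agent.Helper45.FL2.LocAll
import Pool.Agent.Helper82.FL2.VWE
import Pool.Agent.Helper7.FL2.Vface
import Pool.Agent.Helper7.FL2.Lat

/-!
# Spines and inner horns of `V[m](B)` are local for arbitrary labels
-/

open CategoryTheory MonoidalCategory Opposite

set_option autoImplicit false

namespace Pool.Agent.Helper51.FL2

open _root_.FL
open Pool.Agent.Helper45.LOC (locT_refl locT_trans locT_cancel locT_push locT_comap loc_iff_range)
open Pool.Agent.Helper82.FL2 (vK_generate)
open Pool.Agent.Helper7.FL2 (lat_JT lat_bin vface_iso)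
open Pool.Agent.Helper7.FL2.LatAux (Sp dn_Sp Fa Dn)

noncomputable section

variable {C : Type} [SmallCategory C]

section Faces

variable {m : ℕ} (B : Fin m → SP C)

theorem vface_bot : vface B ∅ = ⊥ := by
  apply le_antisymm
  · intro θ k u hu
    exact absurd (hu 0) (Finset.notMem_empty _)
  · exact bot_le

theorem vface_inf (U V : Finset (Fin (m + 1))) :
    vface B (U ∩ V) = vface B U ⊓ vface B V := by
  apply le_antisymm
  · intro θ k u hu
    exact ⟨fun i => (Finset.mem_inter.1 (hu i)).1, fun i => (Finset.mem_inter.1 (hu i)).2⟩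
  · intro θ k u hu
    exact fun i => Finset.mem_inter.2 ⟨hu.1 i, hu.2 i⟩

theorem vface_univ : vface B Finset.univ = ⊤ := by
  apply le_antisymm le_top
  intro θ k u _ i
  exact Finset.mem_univ _

theorem vface_mono {U V : Finset (Fin (m + 1))} (h : U ⊆ V) : vface B U ≤ vface B V := by
  intro θ k u hu i
  exact h (hu i)

/-- Membership in a finite union. -/
theorem mem_sup_iff {A : Type} [SmallCategory A] {P : SP A} {ι : Type} (s : Finset ι)
    (F : ι → Sb P) (a : Aᵒᵖ) (k : SimplexCategoryᵒᵖ) (x : (P.obj a).obj k) :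
    x ∈ (s.sup F).mem a k ↔ ∃ i ∈ s, x ∈ (F i).mem a k := by
  classical
  induction s using Finset.induction_on with
  | empty =>
    rw [Finset.sup_empty]
    exact ⟨fun h => h.elim, fun ⟨i, hi, _⟩ => absurd hi (Finset.notMem_empty i)⟩
  | insert j s hj ih =>
    rw [Finset.sup_insert, Sb.mem_sup, ih]
    constructor
    · rintro (h | ⟨i, hi, h⟩)
      · exact ⟨j, Finset.mem_insert_self _ _, h⟩
      · exact ⟨i, Finset.mem_insert_of_mem hi, h⟩
    · rintro ⟨i, hi, h⟩
      rcases Finset.mem_insert.1 hi with rfl | hi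
      · exact Or.inl h
      · exact Or.inr ⟨i, hi, h⟩

/-- The lower set of a down-closed family. -/
def LS (D : Finset (Fin (m + 1)) → Prop) (hD : Dn D) : LowerSet (Finset (Fin (m + 1))) where
  carrier := { U | D U }
  lower' := fun U V h hU => hD V U h hU

theorem Fa_eq (D : Finset (Fin (m + 1)) → Prop) (hD : Dn D) :
    Fa (vface B) D = vK B (LS D hD) := by
  classical
  refine Sb.ext ?_
  funext θ k
  ext (u : VS B θ.unop k)
  unfold Fa
  refine (mem_sup_iff _ _ _ _ _).trans ?_
  constructor
  · rintro ⟨X, hX, h⟩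
    refine hD _ X ?_ (Finset.mem_filter.1 hX).2
    intro a ha
    obtain ⟨i, _, rfl⟩ := Finset.mem_image.1 ha
    exact h i
  · intro h
    refine ⟨Finset.univ.image u.f, Finset.mem_filter.2 ⟨Finset.mem_univ _, h⟩, ?_⟩
    intro i
    exact Finset.mem_image.2 ⟨i, Finset.mem_univ _, rfl⟩

theorem spine_eq_vK (U : Finset (Fin (m + 1))) :
    spineL (vface B) U = vK B (LS (Sp U) (dn_Sp U)) :=
  (Pool.Agent.Helper7.FL2.LatAux.spine_eq (vface_bot B) (vface_inf B) U).trans
    (Fa_eq B (Sp U) (dn_Sp U))

theorem mem_spine {U : Finset (Fin (m + 1))} {θ : (Wr C)ᵒᵖ} {k : SimplexCategoryᵒᵖ}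
    (u : VS B θ.unop k) :
    (spineL (vface B) U).mem θ k u ↔ Sp U (Finset.univ.image u.f) := by
  rw [spine_eq_vK]
  exact Iff.rfl

theorem spine_le (U : Finset (Fin (m + 1))) : spineL (vface B) U ≤ vface B U := by
  intro θ k (u : VS B θ.unop k) hu
  have h := ((mem_spine B u).1 hu).1
  intro i
  exact h (Finset.mem_image.2 ⟨i, Finset.mem_univ _, rfl⟩)

end Faces

variable {X : SP (Wr C)}

/-- The statement of the main claim for `V[m]`. -/
def Clm (X : SP (Wr C)) (m : ℕ) : Prop :=
  ∀ B : Fin m → SP C, LocT X (spineL (vface B) Finset.univ) ⊤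

/-- From the claim to faces. -/
theorem locT_face {m k : ℕ} (hk : Clm X k) (B : Fin m → SP C) (U : Finset (Fin (m + 1)))
    (hU : U.card = k + 1) : LocT X (spineL (vface B) U) (vface B U) := by
  classical
  set p := U.orderEmbOfFin hU with hp
  obtain ⟨B', f, hf, hr, hff⟩ := vface_iso B p
  have hmap : Finset.univ.map p.toEmbedding = U := by
    ext a
    rw [Finset.mem_map]
    have h1 : Set.range p = (U : Set (Fin (m + 1))) := Finset.range_orderEmbOfFin U hU
    constructor
    · rintro ⟨t, _, rfl⟩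
      exact Finset.orderEmbOfFin_mem U hU t
    · intro ha
      have : a ∈ Set.range p := by rw [h1]; exact ha
      obtain ⟨t, ht⟩ := this
      exact ⟨t, Finset.mem_univ _, ht⟩
  rw [hmap] at hr
  rw [← locT_comap f hf _ _ (spine_le B U) (le_of_eq hr.symm)]
  have e1 : (spineL (vface B) U).comap f = spineL (vface B') Finset.univ := by
    refine Sb.ext ?_
    funext θ l
    ext (u : VS B' θ.unop l)
    refine Iff.trans (mem_spine B ((f.app θ).app l u : VS B θ.unop l)) ?_
    refine Iff.trans ?_ (mem_spine B' u).symm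
    rw [hff]
    constructor
    · rintro ⟨_, h⟩
      refine ⟨Finset.subset_univ _, ?_⟩
      intro a ha b hb c _ hac hcb
      obtain ⟨i, _, rfl⟩ := Finset.mem_image.1 ha
      obtain ⟨j, _, rfl⟩ := Finset.mem_image.1 hb
      exact h (p (u.f i)) (Finset.mem_image.2 ⟨i, Finset.mem_univ _, rfl⟩) (p (u.f j))
        (Finset.mem_image.2 ⟨j, Finset.mem_univ _, rfl⟩) (p c)
        (Finset.orderEmbOfFin_mem U hU c) (p.lt_iff_lt.2 hac) (p.lt_iff_lt.2 hcb)
    · rintro ⟨_, h⟩
      refine ⟨?_, ?_⟩
      · intro a ha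
        obtain ⟨i, _, rfl⟩ := Finset.mem_image.1 ha
        exact Finset.orderEmbOfFin_mem U hU _
      · intro a ha b hb c hc hac hcb
        obtain ⟨i, _, rfl⟩ := Finset.mem_image.1 ha
        obtain ⟨j, _, rfl⟩ := Finset.mem_image.1 hb
        rw [← hmap] at hc
        obtain ⟨c, _, rfl⟩ := Finset.mem_map.1 hc
        exact h (u.f i) (Finset.mem_image.2 ⟨i, Finset.mem_univ _, rfl⟩) (u.f j)
          (Finset.mem_image.2 ⟨j, Finset.mem_univ _, rfl⟩) c
          (Finset.mem_univ _) (p.lt_iff_lt.1 hac) (p.lt_iff_lt.1 hcb)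
  have e2 : (vface B U).comap f = ⊤ := by
    apply le_antisymm le_top
    rw [← hr]
    intro θ l u _
    exact ⟨u, rfl⟩
  rw [e1, e2]
  exact hk B'

/-- Disjoint unions. -/
theorem locT_disj (hX : InjFib X) {P : SP (Wr C)} {S S' T T' : Sb P} (h : LocT X S S')
    (h' : LocT X T T') (hd : S' ⊓ T' = ⊥) : LocT X (S ⊔ T) (S' ⊔ T') := by
  have hS : S ≤ S' := h.1
  have hT : T ≤ T' := h'.1
  have e1 : (S ⊔ T) ⊓ S' = S := by
    rw [inf_sup_right, inf_eq_left.2 hS]
    have : T ⊓ S' = ⊥ := by
      apply le_antisymm _ bot_le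
      rw [← hd, inf_comm]
      exact inf_le_inf_left _ hT
    rw [this, sup_bot_eq]
  have e2 : (S' ⊔ T) ⊓ T' = T := by
    rw [inf_sup_right, inf_eq_left.2 hT, hd, bot_sup_eq]
  have s1 : LocT X (S ⊔ T) ((S ⊔ T) ⊔ S') := by
    apply locT_push hX
    rw [e1]
    exact h
  have s2 : LocT X (S' ⊔ T) ((S' ⊔ T) ⊔ T') := by
    apply locT_push hX
    rw [e2]
    exact h'
  have e3 : (S ⊔ T) ⊔ S' = S' ⊔ T := by
    rw [sup_right_comm, sup_eq_right.2 hS]
  have e4 : (S' ⊔ T) ⊔ T' = S' ⊔ T' := by
    rw [sup_assoc, sup_eq_right.2 hT]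
  rw [e3] at s1
  rw [e4] at s2
  exact locT_trans hX s1 s2

/-- The underlying morphism of a simplex of `V[m](h_{c_1}, …, h_{c_m})`. -/
def toHom {m : ℕ} {c : Fin m → C} {η : Wr C} {k : SimplexCategoryᵒᵖ}
    (u : VS (fun i => rep (c i)) η k) : η ⟶ (⟨m, c⟩ : Wr C) :=
  ({ f := u.f, g := fun i j h => u.g i j h } : Wr.Hom η ⟨m, c⟩)

theorem toHom_inj {m : ℕ} {c : Fin m → C} {η : Wr C} {k : SimplexCategoryᵒᵖ}
    {u v : VS (fun i => rep (c i)) η k} (h : toHom u = toHom v) : u = v := by
  have hf : u.f = v.f := congrArg Wr.Hom.f h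
  refine VS.ext' hf fun i j h1 h2 => ?_
  have key : ∀ (a b : Wr.Hom η (⟨m, c⟩ : Wr C)) (_ : a = b) (h1 : Jump a.f i j)
      (h2 : Jump b.f i j), a.g i j h1 = b.g i j h2 := by
    rintro a b rfl h1 h2
    rfl
  exact key _ _ h _ _

theorem toHom_surj {m : ℕ} {c : Fin m → C} {η : Wr C} {k : SimplexCategoryᵒᵖ}
    (φ : η ⟶ (⟨m, c⟩ : Wr C)) : ∃ u : VS (fun i => rep (c i)) η k, toHom u = φ :=
  ⟨{ f := Wr.Hom.f φ, g := fun i j h => Wr.Hom.g φ i j h }, rfl⟩

/-- The vertices of an edge of the spine. -/
theorem spine_iff {m n : ℕ} (f : Fin (n + 1) →o Fin (m + 1)) :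
    ((∃ v, ∀ t, f t = v) ∨ ∃ i : Fin m, ∀ t, f t = i.castSucc ∨ f t = i.succ) ↔
      Sp Finset.univ (Finset.univ.image f) := by
  constructor
  · intro h
    refine ⟨Finset.subset_univ _, ?_⟩
    intro a ha b hb c _ hac hcb
    obtain ⟨i, _, rfl⟩ := Finset.mem_image.1 ha
    obtain ⟨j, _, rfl⟩ := Finset.mem_image.1 hb
    rcases h with ⟨v, hv⟩ | ⟨v, hv⟩
    · rw [hv i] at hac
      rw [hv j] at hcb
      exact lt_irrefl _ (hac.trans hcb)
    · have h1 : v.castSucc ≤ f i := by
        rcases hv i with h | h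
        · rw [h]
        · rw [h]; exact (Fin.castSucc_lt_succ).le
      have h2 : f j ≤ v.succ := by
        rcases hv j with h | h
        · rw [h]; exact (Fin.castSucc_lt_succ).le
        · rw [h]
      have h3 := h1.trans_lt hac
      have h4 := hcb.trans_le h2
      rw [Fin.lt_def] at h3 h4
      rw [Fin.val_castSucc] at h3
      rw [Fin.val_succ] at h4
      omega
  · rintro ⟨_, h⟩
    have hab : ∀ t, f 0 ≤ f t ∧ f t ≤ f (Fin.last n) := fun t =>
      ⟨f.monotone (Fin.zero_le _), f.monotone (Fin.le_last _)⟩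
    have hm : ∀ t, f t ∈ Finset.univ.image f := fun t =>
      Finset.mem_image.2 ⟨t, Finset.mem_univ _, rfl⟩
    have hlt : (f (Fin.last n)).1 ≤ (f 0).1 + 1 := by
      by_contra hc
      rw [not_le] at hc
      have hb := (f (Fin.last n)).2
      refine h (f 0) (hm _) (f (Fin.last n)) (hm _) ⟨(f 0).1 + 1, by omega⟩
        (Finset.mem_univ _) ?_ ?_
      · rw [Fin.lt_def]
        show (f 0).1 < (f 0).1 + 1
        omega
      · rw [Fin.lt_def]
        exact hc
    by_cases he : f 0 = f (Fin.last n)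
    · left
      refine ⟨f 0, fun t => ?_⟩
      exact le_antisymm (he ▸ (hab t).2) (hab t).1
    · right
      have h0 : (f 0).1 < (f (Fin.last n)).1 := by
        have := (hab (Fin.last n)).1
        exact Fin.lt_def.1 (lt_of_le_of_ne this he)
      have hb := (f (Fin.last n)).2
      refine ⟨⟨(f 0).1, by omega⟩, fun t => ?_⟩
      have h1 := Fin.le_def.1 (hab t).1
      have h2 := Fin.le_def.1 (hab t).2
      rcases Nat.lt_or_ge (f 0).1 (f t).1 with h3 | h3
      · right
        apply Fin.ext
        rw [Fin.val_succ]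
        show (f t).1 = (f 0).1 + 1
        omega
      · left
        apply Fin.ext
        rw [Fin.val_castSucc]
        show (f t).1 = (f 0).1
        omega

/-- The case of representable labels. -/
theorem clm_rep (hS : SpLoc X) {m : ℕ} (c : Fin m → C) :
    LocT X (spineL (vface fun i => rep (c i)) Finset.univ) ⊤ := by
  classical
  have hmono : ∀ a, Mono ((sieveIncl (spine (⟨m, c⟩ : Wr C))).app a) := by
    intro a
    have : ∀ l, Mono (((sieveIncl (spine (⟨m, c⟩ : Wr C))).app a).app l) := by
      intro l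
      rw [mono_iff_injective]
      intro u v h
      exact Subtype.ext h
    exact NatTrans.mono_of_mono_app _
  have h1 := (loc_iff_range _ hmono).1 (hS ⟨m, c⟩)
  have hfm : ∀ a, Mono ((((VGyo C).app ⟨m, c⟩ :
      V (fun i => rep (c i)) ⟶ rep (⟨m, c⟩ : Wr C))).app a) := by
    intro a
    have : ∀ l, Mono (((((VGyo C).app ⟨m, c⟩ :
      V (fun i => rep (c i)) ⟶ rep (⟨m, c⟩ : Wr C))).app a).app l) := by
      intro l
      rw [mono_iff_injective]
      intro u v h
      exact toHom_inj h
    exact NatTrans.mono_of_mono_app _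
  have hr : (⊤ : Sb (rep (⟨m, c⟩ : Wr C))) ≤ Sb.range ((VGyo C).app ⟨m, c⟩ :
      V (fun i => rep (c i)) ⟶ rep (⟨m, c⟩ : Wr C)) := by
    intro η k φ _
    obtain ⟨u, hu⟩ := toHom_surj (k := k) (φ : η.unop ⟶ (⟨m, c⟩ : Wr C))
    exact ⟨u, hu⟩
  have h2 := (locT_comap ((VGyo C).app ⟨m, c⟩ :
      V (fun i => rep (c i)) ⟶ rep (⟨m, c⟩ : Wr C)) hfm _ _ le_top hr).2 h1
  have e1 : (Sb.range (sieveIncl (spine (⟨m, c⟩ : Wr C)))).comap ((VGyo C).app ⟨m, c⟩ :
      V (fun i => rep (c i)) ⟶ rep (⟨m, c⟩ : Wr C)) =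
      spineL (vface fun i => rep (c i)) Finset.univ := by
    refine Sb.ext ?_
    funext η l
    ext (u : VS (fun i => rep (c i)) η.unop l)
    refine Iff.trans ?_ (mem_spine (fun i => rep (c i)) u).symm
    refine Iff.trans ?_ (spine_iff u.f)
    constructor
    · rintro ⟨w, hw⟩
      have h3 : (spine (⟨m, c⟩ : Wr C)).arrows (toHom u) := by
        have h4 : (w.1 : η.unop ⟶ (⟨m, c⟩ : Wr C)) = toHom u := hw
        rw [← h4]
        exact w.2
      exact h3
    · intro h
      exact ⟨⟨toHom u, h⟩, rfl⟩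
  rw [e1] at h2
  exact h2

/-- The inductive step at a label. -/
theorem clm_step (hX : InjFib X) {m : ℕ} (IH : ∀ k < m, Clm X k) (B : Fin m → SP C) (i : Fin m)
    (h1 : ∀ c : C, LocT X (spineL (vface (Function.update B i (rep c))) Finset.univ) ⊤) :
    LocT X (spineL (vface B) Finset.univ) ⊤ := by
  classical
  have key := vK_generate hX B i (LS (Sp Finset.univ) (dn_Sp Finset.univ)) ⊤ le_top ?_ ?_
  · rw [spine_eq_vK]
    have e : vK B ⊤ = ⊤ := by
      apply le_antisymm le_top
      intro θ k u _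
      exact trivial
    rw [e] at key
    exact key
  · -- the part which does not cross the gap
    set U₁ : Finset (Fin (m + 1)) := Finset.univ.filter (· ≤ i.castSucc) with hU₁
    set U₂ : Finset (Fin (m + 1)) := Finset.univ.filter (i.succ ≤ ·) with hU₂
    have hc1 : ∃ k < m, U₁.card = k + 1 := by
      refine ⟨i.1, i.2, ?_⟩
      have : U₁ = Finset.Iic i.castSucc := by
        ext a
        rw [hU₁, Finset.mem_filter, Finset.mem_Iic]
        exact ⟨fun h => h.2, fun h => ⟨Finset.mem_univ _, h⟩⟩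
      rw [this, Fin.card_Iic]
      rfl
    have hc2 : ∃ k < m, U₂.card = k + 1 := by
      refine ⟨m - i.1 - 1, by omega, ?_⟩
      have : U₂ = Finset.Ici i.succ := by
        ext a
        rw [hU₂, Finset.mem_filter, Finset.mem_Ici]
        exact ⟨fun h => h.2, fun h => ⟨Finset.mem_univ _, h⟩⟩
      rw [this, Fin.card_Ici, Fin.val_succ]
      omega
    obtain ⟨k₁, hk₁, hc1⟩ := hc1
    obtain ⟨k₂, hk₂, hc2⟩ := hc2
    have l1 := locT_face (IH k₁ hk₁) B U₁ hc1
    have l2 := locT_face (IH k₂ hk₂) B U₂ hc2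
    have hd : vface B U₁ ⊓ vface B U₂ = ⊥ := by
      rw [← vface_inf, ← vface_bot]
      congr 1
      apply Finset.eq_empty_of_forall_notMem
      intro a ha
      obtain ⟨h3, h4⟩ := Finset.mem_inter.1 ha
      have h5 := (Finset.mem_filter.1 h3).2
      have h6 := (Finset.mem_filter.1 h4).2
      have := (Fin.castSucc_lt_succ (i := i)).trans_le (h6.trans h5)
      exact lt_irrefl _ this
    have l3 := locT_disj hX l1 l2 hd
    have e1 : vK B (LS (Sp Finset.univ) (dn_Sp Finset.univ) ⊓ NC i) =
        spineL (vface B) U₁ ⊔ spineL (vface B) U₂ := by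
      refine Sb.ext ?_
      funext θ k
      ext (u : VS B θ.unop k)
      have h3 := mem_spine B (U := U₁) u
      have h4 := mem_spine B (U := U₂) u
      constructor
      · rintro ⟨⟨_, h⟩, h5 | h5⟩
        · left
          apply h3.2
          refine ⟨fun a ha => Finset.mem_filter.2 ⟨Finset.mem_univ _, h5 a ha⟩, ?_⟩
          intro a ha b hb c _
          exact h a ha b hb c (Finset.mem_univ _)
        · right
          apply h4.2
          refine ⟨fun a ha => Finset.mem_filter.2 ⟨Finset.mem_univ _, h5 a ha⟩, ?_⟩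
          intro a ha b hb c _
          exact h a ha b hb c (Finset.mem_univ _)
      · rintro (h | h)
        · obtain ⟨h5, h6⟩ := h3.1 h
          refine ⟨⟨Finset.subset_univ _, ?_⟩, Or.inl fun a ha => (Finset.mem_filter.1 (h5 ha)).2⟩
          intro a ha b hb c _ hac hcb
          refine h6 a ha b hb c ?_ hac hcb
          exact Finset.mem_filter.2 ⟨Finset.mem_univ _,
            hcb.le.trans (Finset.mem_filter.1 (h5 hb)).2⟩
        · obtain ⟨h5, h6⟩ := h4.1 h
          refine ⟨⟨Finset.subset_univ _, ?_⟩, Or.inr fun a ha => (Finset.mem_filter.1 (h5 ha)).2⟩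
          intro a ha b hb c _ hac hcb
          refine h6 a ha b hb c ?_ hac hcb
          exact Finset.mem_filter.2 ⟨Finset.mem_univ _,
            (Finset.mem_filter.1 (h5 ha)).2.trans hac.le⟩
    have e2 : vK B (⊤ ⊓ NC i) = vface B U₁ ⊔ vface B U₂ := by
      refine Sb.ext ?_
      funext θ k
      ext (u : VS B θ.unop k)
      have hm : ∀ t, u.f t ∈ Finset.univ.image u.f := fun t =>
        Finset.mem_image.2 ⟨t, Finset.mem_univ _, rfl⟩
      constructor
      · rintro ⟨_, h5 | h5⟩
        · left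
          intro t
          exact Finset.mem_filter.2 ⟨Finset.mem_univ _, h5 _ (hm t)⟩
        · right
          intro t
          exact Finset.mem_filter.2 ⟨Finset.mem_univ _, h5 _ (hm t)⟩
      · rintro (h | h)
        · refine ⟨trivial, Or.inl ?_⟩
          intro a ha
          obtain ⟨t, _, rfl⟩ := Finset.mem_image.1 ha
          exact (Finset.mem_filter.1 (h t)).2
        · refine ⟨trivial, Or.inr ?_⟩
          intro a ha
          obtain ⟨t, _, rfl⟩ := Finset.mem_image.1 ha
          exact (Finset.mem_filter.1 (h t)).2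
    rw [e1, e2]
    exact l3
  · intro c
    have h2 := h1 c
    rw [spine_eq_vK] at h2
    have e : vK (Function.update B i (rep c)) ⊤ = ⊤ := by
      apply le_antisymm le_top
      intro θ k u _
      exact trivial
    rw [e]
    exact h2

/-- Spines of `V[m](B)` are local. -/
theorem clm (hX : InjFib X) (hS : SpLoc X) (m : ℕ) : Clm X m := by
  classical
  induction m using Nat.strong_induction_on with
  | _ m IH =>
    have key : ∀ (n : ℕ) (B : Fin m → SP C),
        (Finset.univ.filter fun i => ¬ ∃ c, B i = rep c).card = n →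
          LocT X (spineL (vface B) Finset.univ) ⊤ := by
      intro n
      induction n using Nat.strong_induction_on with
      | _ n ihn =>
        intro B hB
        by_cases hall : ∀ i, ∃ c, B i = rep c
        · choose c hc using hall
          obtain rfl : B = fun i => rep (c i) := funext hc
          exact clm_rep hS c
        · push Not at hall
          obtain ⟨i, hi⟩ := hall
          apply clm_step hX IH B i
          intro c
          refine ihn _ ?_ (Function.update B i (rep c)) rfl
          rw [← hB]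
          apply Finset.card_lt_card
          rw [Finset.ssubset_iff_of_subset]
          · refine ⟨i, Finset.mem_filter.2 ⟨Finset.mem_univ _, ?_⟩, ?_⟩
            · rintro ⟨c', hc'⟩
              exact hi c' hc'
            · intro h
              refine (Finset.mem_filter.1 h).2 ⟨c, ?_⟩
              exact Function.update_self i (rep c) B
          · intro j hj
            refine Finset.mem_filter.2 ⟨Finset.mem_univ _, ?_⟩
            rintro ⟨c', hc'⟩
            refine (Finset.mem_filter.1 hj).2 ?_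
            by_cases hji : j = i
            · subst hji
              exact ⟨c, Function.update_self j (rep c) B⟩
            · exact ⟨c', (Function.update_of_ne hji (rep c) B).trans hc'⟩
    intro B
    exact key _ B rfl

theorem vface_spine {X : SP (Wr C)} (hX : InjFib X) (hS : SpLoc X) {m : ℕ} (B : Fin m → SP C)
    (U : Finset (Fin (m + 1))) (hU : U.Nonempty) :
    LocT X (spineL (vface B) U) (vface B U) := by
  obtain ⟨k, hk⟩ : ∃ k, U.card = k + 1 :=
    ⟨U.card - 1, by have := hU.card_pos; omega⟩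
  exact locT_face (clm hX hS k) B U hk

theorem vface_horn {X : SP (Wr C)} (hX : InjFib X) (hS : SpLoc X) {m : ℕ} (B : Fin m → SP C)
    (i : Fin (m + 1)) (h0 : 0 < i) (h1 : i < Fin.last m) :
    LocT X (hornL (vface B) Finset.univ (Finset.univ.erase i)) ⊤ := by
  classical
  have h := lat_JT (vface B) (vface_bot B) (vface_inf B) (LocT X) (fun K => locT_refl K)
    (fun _ _ _ h h' => locT_trans hX h h') (fun _ _ _ h h' hle => locT_cancel hX h h' hle)
    (fun _ _ h => locT_push hX h) (fun U hU => vface_spine hX hS B U hU)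
    Finset.univ {i} (Finset.singleton_nonempty i) (Finset.subset_univ _) (by
      intro j hj
      obtain rfl := Finset.mem_singleton.1 hj
      exact ⟨⟨0, Finset.mem_univ _, h0⟩, ⟨Fin.last m, Finset.mem_univ _, h1⟩⟩)
  rw [vface_univ] at h
  have e : (Finset.univ : Finset (Fin (m + 1))) \ {i} = Finset.univ.erase i :=
    Finset.sdiff_singleton_eq_erase i _
  rw [e] at h
  exact h

theorem vface_bin {X : SP (Wr C)} (hX : InjFib X) (hS : SpLoc X) {m : ℕ} (B : Fin m → SP C)
    (a : Fin (m + 1)) :
    LocT X (vface B (Finset.univ.filter (· ≤ a)) ⊔ vface B (Finset.univ.filter (a ≤ ·))) ⊤ := by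
  have h := lat_bin (vface B) (vface_bot B) (vface_inf B) (LocT X) (fun K => locT_refl K)
    (fun _ _ _ h h' => locT_trans hX h h') (fun _ _ _ h h' hle => locT_cancel hX h h' hle)
    (fun _ _ h => locT_push hX h) (fun U hU => vface_spine hX hS B U hU)
    Finset.univ a (Finset.mem_univ _)
  rw [vface_univ] at h
  exact h

end

end Pool.Agent.Helper51.FL2
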